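import Pool.Agent.H.MP_12caf3_co.D

set_option autoImplicit false

namespace Pool.Agent.Results.MP_12caf3_co.Holds

open Finset Equiv Classical

/-- The set {±1, ..., ±n}: the pair (e, i) stands for the integer e * (i + 1). -/
abbrev PM (n : ℕ) := ℤˣ × Fin n

/-- The integer that an element of {±1, ..., ±n} stands for. -/
def toInt {n : ℕ} (x : PM n) : ℤ := x.1 * ((x.2 : ℕ) + 1)

/-- Negation on {±1, ..., ±n}. -/
def ng {n : ℕ} (x : PM n) : PM n := (-x.1, x.2)

/-- Signed permutations: bijections with π(-x) = -π(x). -/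
def IsSigned {n : ℕ} (π : Perm (PM n)) : Prop := ∀ x, π (ng x) = ng (π x)

/-- The word π(0) = 0, π(1), ..., π(n). -/
def window {n : ℕ} (π : Perm (PM n)) : Fin (n + 1) → ℤ := Fin.cons 0 fun i => toInt (π (1, i))

/-- The type B descent number. -/
noncomputable def desB {n : ℕ} (π : Perm (PM n)) : ℕ :=
  (univ.filter fun i : Fin n => window π i.succ < window π i.castSucc).card

/-- The signed permutation matrix: column j has the sign of π(j) in row |π(j)|. -/
def mat {n : ℕ} (π : Perm (PM n)) : Matrix (Fin n) (Fin n) ℤ :=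
  Matrix.of fun i j => if (π (1, j)).2 = i then ((π (1, j)).1 : ℤ) else 0

/-- The two-sided type B Eulerian polynomial of the signed permutations of determinant e. -/
noncomputable def TSB (n : ℕ) (e : ℤ) (s t : ℝ) : ℝ :=
  ∑ π ∈ univ.filter (fun π : Perm (PM n) => IsSigned π ∧ (mat π).det = e), t ^ desB π * s ^ desB π⁻¹

def mkP {n : ℕ} (σ : Perm (Fin n)) (ε : Fin n → ℤˣ) : Perm (PM n) where
  toFun x := (x.1 * ε x.2, σ x.2)
  invFun y := (y.1 * ε (σ.symm y.2), σ.symm y.2)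
  left_inv x := by simp [mul_assoc]
  right_inv y := by simp [mul_assoc]

lemma mkP_surj {n : ℕ} (π : Perm (PM n)) (h : IsSigned π) : ∃ σ ε, mkP σ ε = π := by
  have hi : Function.Injective fun i => (π (1, i)).2 := by
    intro i j e
    by_cases g : (π (1, i)).1 = (π (1, j)).1
    · exact (Prod.ext_iff.1 (π.injective (Prod.ext g e))).2
    · have g1 : ng (π (1, i)) = π (1, j) := by
        refine Prod.ext ?_ e
        rcases Int.units_eq_one_or (π (1, i)).1 with g2 | g2 <;>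
          rcases Int.units_eq_one_or (π (1, j)).1 with g3 | g3 <;> simp_all [ng]
      rw [← h] at g1
      exact (Prod.ext_iff.1 (π.injective g1)).2
  refine ⟨Equiv.ofBijective _ (Finite.injective_iff_bijective.1 hi), fun i => (π (1, i)).1, ?_⟩
  refine Equiv.ext fun x => ?_
  obtain ⟨e, i⟩ := x
  rcases Int.units_eq_one_or e with rfl | rfl
  · simp [mkP]
  · have := h (1, i)
    simp only [ng] at this
    rw [this]
    simp [mkP]

theorem result (n : ℕ) (hn : 0 < n) (he : Even n) (e : ℤ) (h : e = 1 ∨ e = -1) :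
    ∃ γ : ℕ → ℕ → ℝ, (∀ i j, 0 ≤ γ i j) ∧ ∀ s t : ℝ, TSB n e s t =
      ∑ i ∈ range (n + 1), ∑ j ∈ range (n + 1 - 2 * i),
        γ i j * (s * t) ^ i * (s + t) ^ j * (1 + s * t) ^ (n - 2 * i - j) := by
  obtain ⟨u, rfl⟩ : ∃ u : ℤˣ, (u : ℤ) = e := by
    rcases h with rfl | rfl
    exacts [⟨1, rfl⟩, ⟨-1, rfl⟩]
  obtain ⟨γ, h1, h2⟩ := Pool.Agent.H.MP_12caf3_co.main hn he u
  refine ⟨γ, h1, fun s t => ?_⟩
  rw [← h2, ← Fintype.sum_prod_type', ← sum_filter, TSB]
  have hd : ∀ (σ : Perm (Fin n)) (ε : Fin n → ℤˣ), (mat (mkP σ ε)).det = ((Perm.sign σ * ∏ q, ε q : ℤˣ) : ℤ) := by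
    intro σ ε
    have : mat (mkP σ ε) = (Matrix.diagonal fun i => (ε i : ℤ)).submatrix σ.symm id := by
      ext i j
      simp only [mat, mkP, Matrix.of_apply, coe_fn_mk, one_mul, Matrix.submatrix_apply, id, Matrix.diagonal_apply,
        Equiv.symm_apply_eq]
      split_ifs with g1 g2 g2
      · rw [← g1, symm_apply_apply]
      · exact absurd g1.symm g2
      · exact absurd g2.symm g1
      · rfl
    rw [this, Matrix.det_permute, Matrix.det_diagonal]
    simp
  symm
  refine sum_bij (fun x _ => mkP x.1 x.2) (fun x hx => ?_) (fun x _ y _ g => ?_) (fun π hπ => ?_) (fun x _ => ?_)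
  · refine mem_filter.2 ⟨mem_univ _, fun z => by simp [mkP, ng], ?_⟩
    rw [hd, (mem_filter.1 hx).2]
  · have g1 : ∀ i, mkP x.1 x.2 (1, i) = mkP y.1 y.2 (1, i) := fun i => by rw [g]
    simp only [mkP, coe_fn_mk, one_mul, Prod.mk.injEq] at g1
    exact Prod.ext (Equiv.ext fun i => (g1 i).2) (funext fun i => (g1 i).1)
  · obtain ⟨g1, g2⟩ := (mem_filter.1 hπ).2
    obtain ⟨σ, ε, rfl⟩ := mkP_surj π g1
    rw [hd] at g2
    exact ⟨(σ, ε), mem_filter.2 ⟨mem_univ _, Units.ext g2⟩, rfl⟩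
  · have g1 : (fun i => toInt (mkP x.1 x.2 (1, i))) = Pool.Agent.H.MP_12caf3_co.vl x.1 x.2 := by
      funext i; simp [toInt, mkP, Pool.Agent.H.MP_12caf3_co.vl]
    have g2 : (fun i => toInt ((mkP x.1 x.2)⁻¹ (1, i))) =
        Pool.Agent.H.MP_12caf3_co.vl x.1.symm (x.2 ∘ x.1.symm) := by
      funext i; simp [toInt, mkP, Pool.Agent.H.MP_12caf3_co.vl, Perm.inv_def]
    simp only [desB, window, g1, g2, Fin.cons_succ]
    rfl

end Pool.Agent.Results.MP_12caf3_co.Holds
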